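import Mathlib

/-!
# MP_3e0fcf_co : the symplectic content-hook sum at `t = 0`
-/

namespace Pool.Agent.Results.MP_3e0fcf_co.SymplecticAtZero

open Finset PowerSeries

noncomputable section

/-- The part `μ_i` (`i ≥ 1`, padded by zeros) of the partition with Young diagram `μ`
(Mathlib's `rowLen` is indexed from `0`). -/
def part (μ : YoungDiagram) (i : ℕ) : ℤ := (μ.rowLen (i - 1) : ℤ)

/-- The part `μ'_j` (`j ≥ 1`, padded by zeros) of the conjugate partition. -/
def cpart (μ : YoungDiagram) (j : ℕ) : ℤ := (μ.colLen (j - 1) : ℤ)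

/-- The hook length `h(i,j) = (μ_i - j) + (μ'_j - i) + 1`. -/
def hook (μ : YoungDiagram) (i j : ℕ) : ℤ := (part μ i - j) + (cpart μ j - i) + 1

/-- The symplectic content `c_sp(i,j)`. -/
def csp (μ : YoungDiagram) (i j : ℕ) : ℤ :=
  if j < i then (part μ i - i) + (part μ j - j) + 2
  else -(cpart μ i - i) - (cpart μ j - j)

/-- `a_n = ∑_{μ ⊢ n} ∏_{(i,j) ∈ μ} c_sp(i,j) / h(i,j)`.
A cell `c` of Mathlib's (0-indexed) Young diagram is the cell `(c.1 + 1, c.2 + 1)` of the
1-indexed one; the sum is over the (finitely many) Young diagrams with `n` cells. -/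
def a (n : ℕ) : ℚ :=
  ∑ᶠ (μ : YoungDiagram) (_ : μ.card = n),
    ∏ c ∈ μ.cells, (csp μ (c.1 + 1) (c.2 + 1) : ℚ) / (hook μ (c.1 + 1) (c.2 + 1) : ℚ)

/-! ### Basic facts -/

/-- diagrams with `μ'_i = μ_i + 1` on the diagonal -/
def IsB (μ : YoungDiagram) : Prop := ∀ i, (i, i) ∈ μ → μ.colLen i = μ.rowLen i + 1

lemma hook_eq (μ : YoungDiagram) (i j : ℕ) :
    hook μ (i + 1) (j + 1) = (μ.rowLen i : ℤ) + μ.colLen j - i - j - 1 := by
  unfold hook part cpart
  simp only [Nat.add_sub_cancel]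
  push_cast
  ring

lemma csp_lt (μ : YoungDiagram) (i j : ℕ) (h : j < i) :
    csp μ (i + 1) (j + 1) = (μ.rowLen i : ℤ) + μ.rowLen j - i - j := by
  unfold csp part
  rw [if_pos (by omega)]
  simp only [Nat.add_sub_cancel]
  push_cast
  ring

lemma csp_ge (μ : YoungDiagram) (i j : ℕ) (h : i ≤ j) :
    csp μ (i + 1) (j + 1) = (i : ℤ) + j + 2 - μ.colLen i - μ.colLen j := by
  unfold csp cpart
  rw [if_neg (by omega)]
  simp only [Nat.add_sub_cancel]
  push_cast
  ring

/-- the weight of a cell -/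
def g (c : ℕ × ℕ) : ℚ := if c.1 ≤ c.2 then -1 else 1

lemma hook_pos (μ : YoungDiagram) (i j : ℕ) (h : (i, j) ∈ μ) : 0 < hook μ (i + 1) (j + 1) := by
  rw [hook_eq]
  have h1 := YoungDiagram.mem_iff_lt_rowLen.1 h
  have h2 := YoungDiagram.mem_iff_lt_colLen.1 h
  omega

lemma prod_of_isB (μ : YoungDiagram) (hμ : IsB μ) :
    ∏ c ∈ μ.cells, (csp μ (c.1 + 1) (c.2 + 1) : ℚ) / (hook μ (c.1 + 1) (c.2 + 1) : ℚ)
      = ∏ c ∈ μ.cells, g c := by
  refine Finset.prod_congr rfl ?_
  rintro ⟨i, j⟩ hc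
  have hc' : (i, j) ∈ μ := hc
  have hpos := hook_pos μ i j hc'
  have hne : ((hook μ (i + 1) (j + 1) : ℤ) : ℚ) ≠ 0 := by
    exact_mod_cast hpos.ne'
  unfold g
  simp only
  split_ifs with hij
  · have hd : (i, i) ∈ μ := μ.up_left_mem le_rfl hij hc'
    have e := hμ i hd
    have : csp μ (i + 1) (j + 1) = - hook μ (i + 1) (j + 1) := by
      rw [csp_ge μ i j hij, hook_eq, e]; push_cast; ring
    rw [this]; push_cast
    rw [neg_div, div_self hne]
  · push Not at hij
    have hd : (j, j) ∈ μ := μ.up_left_mem hij.le le_rfl hc'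
    have e := hμ j hd
    have : csp μ (i + 1) (j + 1) = hook μ (i + 1) (j + 1) := by
      rw [csp_lt μ i j hij, hook_eq, e]; push_cast; ring
    rw [this, div_self hne]

/-- If no symplectic content vanishes then the diagram is of the form `(a | a+1)`. -/
lemma isB_of_ne (μ : YoungDiagram)
    (h : ∀ i j, (i, j) ∈ μ → csp μ (i + 1) (j + 1) ≠ 0) : IsB μ := by
  classical
  -- downward induction on i
  have key : ∀ m i, μ.rowLen 0 ≤ i + m → (i, i) ∈ μ → μ.colLen i = μ.rowLen i + 1 := by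
    intro m
    induction m with
    | zero =>
      intro i hi hmem
      have h1 := YoungDiagram.mem_iff_lt_rowLen.1 hmem
      have h2 := μ.rowLen_anti 0 i (Nat.zero_le _)
      omega
    | succ m ih =>
      intro i hi hmem
      have ih' : ∀ i', i < i' → (i', i') ∈ μ → μ.colLen i' = μ.rowLen i' + 1 := by
        intro i' h1 h2
        exact ih i' (by omega) h2
      have hr := YoungDiagram.mem_iff_lt_rowLen.1 hmem
      have hc := YoungDiagram.mem_iff_lt_colLen.1 hmem
      have hdiag := h i i hmem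
      rw [csp_ge μ i i le_rfl] at hdiag
      by_contra hcon
      rcases lt_or_gt_of_ne hcon with hlt | hgt
      · -- colLen i < rowLen i + 1
        obtain ⟨B, hB⟩ : ∃ B, μ.colLen i = i + B + 1 := ⟨μ.colLen i - i - 1, by omega⟩
        have hB1 : 1 ≤ B := by
          by_contra hB0
          apply hdiag
          have : B = 0 := by omega
          subst this
          rw [hB]; push_cast; ring
        have hin : (i, i + B) ∈ μ := YoungDiagram.mem_iff_lt_rowLen.2 (by omega)
        have hex : ∃ x, (x, x + B) ∉ μ := by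
          refine ⟨μ.colLen 0, fun hx => ?_⟩
          have h1 := YoungDiagram.mem_iff_lt_colLen.1 hx
          have h2 := μ.colLen_anti 0 (μ.colLen 0 + B) (Nat.zero_le _)
          omega
        set t := Nat.find hex with ht
        have ht1 : (t, t + B) ∉ μ := Nat.find_spec hex
        have ht2 : ∀ x, x < t → (x, x + B) ∈ μ := fun x hx => by
          by_contra hxx
          exact Nat.find_min hex hx hxx
        have hti : i < t := by
          by_contra hle
          exact ht1 (μ.up_left_mem (by omega) (by omega) hin)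
        obtain ⟨s, hs⟩ : ∃ s, t = s + 1 := ⟨t - 1, by omega⟩
        have hs1 : (s, s + B) ∈ μ := ht2 s (by omega)
        rw [hs] at ht1
        by_cases hmem2 : (s + 1, s + B) ∈ μ
        · have hdt : (s + 1, s + 1) ∈ μ := μ.up_left_mem le_rfl (by omega) hmem2
          have e := ih' (s + 1) (by omega) hdt
          have r1 := YoungDiagram.mem_iff_lt_rowLen.1 hmem2
          have c1 := μ.colLen_anti i (s + 1) (by omega)
          omega
        · have c1 := YoungDiagram.mem_iff_lt_colLen.1 hs1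
          have c2 : ¬ (s + 1 < μ.colLen (s + B)) := fun hh =>
            hmem2 (YoungDiagram.mem_iff_lt_colLen.2 hh)
          have c3 : μ.colLen (s + B) = s + 1 := by omega
          have hij : (i, s + B) ∈ μ := μ.up_left_mem (by omega) le_rfl hs1
          apply h i (s + B) hij
          rw [csp_ge μ i (s + B) (by omega), c3, hB]
          push_cast; ring
      · -- colLen i > rowLen i + 1
        obtain ⟨A, hA⟩ : ∃ A, μ.rowLen i = i + A := ⟨μ.rowLen i - i, by omega⟩
        have hA1 : 1 ≤ A := by omega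
        have hin : (i + A, i) ∈ μ := YoungDiagram.mem_iff_lt_colLen.2 (by omega)
        have hex : ∃ y, (y + A, y) ∉ μ := by
          refine ⟨μ.rowLen 0, fun hx => ?_⟩
          have h1 := YoungDiagram.mem_iff_lt_rowLen.1 hx
          have h2 := μ.rowLen_anti 0 (μ.rowLen 0 + A) (Nat.zero_le _)
          omega
        set t := Nat.find hex with ht
        have ht1 : (t + A, t) ∉ μ := Nat.find_spec hex
        have ht2 : ∀ x, x < t → (x + A, x) ∈ μ := fun x hx => by
          by_contra hxx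
          exact Nat.find_min hex hx hxx
        have hti : i < t := by
          by_contra hle
          exact ht1 (μ.up_left_mem (by omega) (by omega) hin)
        obtain ⟨s, hs⟩ : ∃ s, t = s + 1 := ⟨t - 1, by omega⟩
        have hs1 : (s + A, s) ∈ μ := ht2 s (by omega)
        rw [hs] at ht1
        by_cases hmem2 : (s + 1 + A, s) ∈ μ
        · have r1 := YoungDiagram.mem_iff_lt_rowLen.1 hmem2
          have r2 : ¬ (s + 1 < μ.rowLen (s + 1 + A)) := fun hh =>
            ht1 (YoungDiagram.mem_iff_lt_rowLen.2 hh)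
          have r3 : μ.rowLen (s + 1 + A) = s + 1 := by omega
          have hij : (s + 1 + A, i) ∈ μ := μ.up_left_mem le_rfl (by omega) hmem2
          apply h (s + 1 + A) i hij
          rw [csp_lt μ (s + 1 + A) i (by omega), r3, hA]
          push_cast; ring
        · have c1 := YoungDiagram.mem_iff_lt_colLen.1 hs1
          have c2 : ¬ (s + 1 + A < μ.colLen s) := fun hh =>
            hmem2 (YoungDiagram.mem_iff_lt_colLen.2 hh)
          have c3 : μ.colLen s = s + A + 1 := by omega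
          rcases Nat.lt_or_ge i s with his | his
          · have hdt : (s, s) ∈ μ := μ.up_left_mem (by omega) le_rfl hs1
            have e := ih' s his hdt
            have r1 := μ.rowLen_anti i s his.le
            omega
          · have : s = i := by omega
            subst this
            omega
  intro i hi
  exact key (μ.rowLen 0) i (by omega) hi

lemma prod_of_not_isB (μ : YoungDiagram) (hμ : ¬ IsB μ) :
    ∏ c ∈ μ.cells, (csp μ (c.1 + 1) (c.2 + 1) : ℚ) / (hook μ (c.1 + 1) (c.2 + 1) : ℚ) = 0 := by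
  by_contra hne
  apply hμ
  apply isB_of_ne
  intro i j hij h0
  apply hne
  apply Finset.prod_eq_zero (i := (i, j)) hij
  simp [h0]

/-! ### Adding and removing the principal hook -/

/-- add a first row of length `k` and a first column of length `k+1` -/
def addHook (k : ℕ) (ν : YoungDiagram) : YoungDiagram where
  cells := ((range k).image (fun j => (0, j))) ∪ ((range k).image (fun i => (i + 1, 0))) ∪
    (ν.cells.filter (fun c => c.1 < k ∧ c.2 + 1 < k)).image (fun c => (c.1 + 1, c.2 + 1))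
  isLowerSet := by
    rintro ⟨x, y⟩ ⟨x', y'⟩ hle hmem
    have hx : x' ≤ x := hle.1
    have hy : y' ≤ y := hle.2
    simp only [Finset.mem_coe, Finset.mem_union, Finset.mem_image, Finset.mem_range,
      Finset.mem_filter, Prod.mk.injEq, Prod.exists, YoungDiagram.mem_cells] at hmem ⊢
    rcases x' with _ | x'
    · left; left
      refine ⟨y', ?_, rfl, rfl⟩
      rcases hmem with (⟨a, h1, h2, h3⟩ | ⟨a, h1, h2, h3⟩) | ⟨a, b, h1, h2, h3⟩ <;> omega
    · rcases y' with _ | y'
      · left; right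
        refine ⟨x', ?_, rfl, rfl⟩
        rcases hmem with (⟨a, h1, h2, h3⟩ | ⟨a, h1, h2, h3⟩) | ⟨a, b, h1, h2, h3⟩ <;> omega
      · right
        rcases hmem with (⟨a, h1, h2, h3⟩ | ⟨a, h1, h2, h3⟩) | ⟨a, b, h1, h2, h3⟩
        · omega
        · omega
        · refine ⟨x', y', ⟨?_, by omega, by omega⟩, rfl, rfl⟩
          exact ν.up_left_mem (by omega) (by omega) h1.1

lemma mem_addHook_succ (k : ℕ) (ν : YoungDiagram) (i j : ℕ) :
    (i + 1, j + 1) ∈ addHook k ν ↔ (i, j) ∈ ν ∧ i < k ∧ j + 1 < k := by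
  rw [← YoungDiagram.mem_cells]
  simp [addHook]

lemma mem_addHook_zero (k : ℕ) (ν : YoungDiagram) (j : ℕ) :
    (0, j) ∈ addHook k ν ↔ j < k := by
  rw [← YoungDiagram.mem_cells]
  simp [addHook]

lemma mem_addHook_col (k : ℕ) (ν : YoungDiagram) (i : ℕ) :
    (i + 1, 0) ∈ addHook k ν ↔ i < k := by
  rw [← YoungDiagram.mem_cells]
  simp [addHook]

/-- remove the first row and column -/
def inner (μ : YoungDiagram) : YoungDiagram where
  cells := (μ.cells.filter (fun c => 0 < c.1 ∧ 0 < c.2)).image (fun c => (c.1 - 1, c.2 - 1))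
  isLowerSet := by
    rintro ⟨x, y⟩ ⟨x', y'⟩ hle hmem
    have hx : x' ≤ x := hle.1
    have hy : y' ≤ y := hle.2
    simp only [Finset.mem_coe, Finset.mem_image, Finset.mem_filter, Prod.mk.injEq, Prod.exists,
      YoungDiagram.mem_cells] at hmem ⊢
    obtain ⟨a, b, ⟨h1, h2, h3⟩, h4, h5⟩ := hmem
    refine ⟨x' + 1, y' + 1, ⟨μ.up_left_mem (by omega) (by omega) h1, by omega, by omega⟩,
      by omega, by omega⟩

lemma mem_inner (μ : YoungDiagram) (i j : ℕ) : (i, j) ∈ inner μ ↔ (i + 1, j + 1) ∈ μ := by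
  rw [← YoungDiagram.mem_cells]
  simp only [inner, Finset.mem_image, Finset.mem_filter, Prod.mk.injEq, Prod.exists,
      YoungDiagram.mem_cells]
  constructor
  · rintro ⟨a, b, ⟨h1, h2, h3⟩, h4, h5⟩
    have e1 : a = i + 1 := by omega
    have e2 : b = j + 1 := by omega
    subst e1; subst e2; exact h1
  · intro h
    exact ⟨i + 1, j + 1, ⟨h, by omega, by omega⟩, by omega, by omega⟩

lemma rowLen_inner (μ : YoungDiagram) (i : ℕ) : (inner μ).rowLen i = μ.rowLen (i + 1) - 1 := by
  apply le_antisymm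
  · by_contra hlt
    push Not at hlt
    have := YoungDiagram.mem_iff_lt_rowLen.2 hlt
    rw [mem_inner] at this
    have := YoungDiagram.mem_iff_lt_rowLen.1 this
    omega
  · by_contra hlt
    push Not at hlt
    have : (i + 1, (inner μ).rowLen i + 1) ∈ μ := YoungDiagram.mem_iff_lt_rowLen.2 (by omega)
    rw [← mem_inner] at this
    have := YoungDiagram.mem_iff_lt_rowLen.1 this
    omega

lemma colLen_inner (μ : YoungDiagram) (i : ℕ) : (inner μ).colLen i = μ.colLen (i + 1) - 1 := by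
  apply le_antisymm
  · by_contra hlt
    push Not at hlt
    have := YoungDiagram.mem_iff_lt_colLen.2 hlt
    rw [mem_inner] at this
    have := YoungDiagram.mem_iff_lt_colLen.1 this
    omega
  · by_contra hlt
    push Not at hlt
    have : ((inner μ).colLen i + 1, i + 1) ∈ μ := YoungDiagram.mem_iff_lt_colLen.2 (by omega)
    rw [← mem_inner] at this
    have := YoungDiagram.mem_iff_lt_colLen.1 this
    omega

lemma isB_inner (μ : YoungDiagram) (h : IsB μ) : IsB (inner μ) := by
  intro i hi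
  rw [mem_inner] at hi
  have e := h (i + 1) hi
  have h1 := YoungDiagram.mem_iff_lt_rowLen.1 hi
  rw [rowLen_inner, colLen_inner]
  omega

/-- The condition that `ν` fits. -/
lemma rowLen_zero_of_isB (ν : YoungDiagram) (h : IsB ν) :
    ν.colLen 0 = 0 ∧ ν.rowLen 0 = 0 ∨ ν.colLen 0 = ν.rowLen 0 + 1 ∧ 1 ≤ ν.rowLen 0 := by
  by_cases h0 : (0, 0) ∈ ν
  · right
    exact ⟨h 0 h0, by have := YoungDiagram.mem_iff_lt_rowLen.1 h0; omega⟩
  · left
    have h1 : ¬ (0 < ν.colLen 0) := fun hh => h0 (YoungDiagram.mem_iff_lt_colLen.2 hh)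
    have h2 : ¬ (0 < ν.rowLen 0) := fun hh => h0 (YoungDiagram.mem_iff_lt_rowLen.2 hh)
    omega

lemma fits (k : ℕ) (ν : YoungDiagram) (h : IsB ν) (hk : ν.colLen 0 ≤ k) (i j : ℕ)
    (hij : (i, j) ∈ ν) : i < k ∧ j + 1 < k := by
  have h1 := YoungDiagram.mem_iff_lt_rowLen.1 hij
  have h2 := YoungDiagram.mem_iff_lt_colLen.1 hij
  have h3 := ν.rowLen_anti 0 i (Nat.zero_le _)
  have h4 := ν.colLen_anti 0 j (Nat.zero_le _)
  have h5 := rowLen_zero_of_isB ν h
  omega

lemma inner_addHook (k : ℕ) (ν : YoungDiagram) (h : IsB ν) (hk : ν.colLen 0 ≤ k) :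
    inner (addHook k ν) = ν := by
  ext ⟨i, j⟩
  rw [YoungDiagram.mem_cells, YoungDiagram.mem_cells, mem_inner, mem_addHook_succ]
  constructor
  · exact fun h => h.1
  · exact fun hh => ⟨hh, fits k ν h hk i j hh⟩

lemma colLen_addHook_zero (k : ℕ) (ν : YoungDiagram) (hk : 1 ≤ k) :
    (addHook k ν).colLen 0 = k + 1 := by
  apply le_antisymm
  · by_contra hlt
    push Not at hlt
    have h1 : (k + 1, 0) ∈ addHook k ν := YoungDiagram.mem_iff_lt_colLen.2 hlt
    rw [mem_addHook_col] at h1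
    omega
  · obtain ⟨m, rfl⟩ : ∃ m, k = m + 1 := ⟨k - 1, by omega⟩
    have h1 : (m + 1, 0) ∈ addHook (m + 1) ν := (mem_addHook_col _ _ _).2 (by omega)
    have := YoungDiagram.mem_iff_lt_colLen.1 h1
    omega

lemma rowLen_addHook_zero (k : ℕ) (ν : YoungDiagram) :
    (addHook k ν).rowLen 0 = k := by
  apply le_antisymm
  · by_contra hlt
    push Not at hlt
    have h1 : (0, k) ∈ addHook k ν := YoungDiagram.mem_iff_lt_rowLen.2 hlt
    rw [mem_addHook_zero] at h1
    omega
  · by_contra hlt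
    push Not at hlt
    have h1 : (0, (addHook k ν).rowLen 0) ∈ addHook k ν := (mem_addHook_zero _ _ _).2 hlt
    have := YoungDiagram.mem_iff_lt_rowLen.1 h1
    omega

lemma isB_addHook (k : ℕ) (ν : YoungDiagram) (h : IsB ν) (hk1 : 1 ≤ k) (hk : ν.colLen 0 ≤ k) :
    IsB (addHook k ν) := by
  intro i hi
  rcases i with _ | i
  · rw [colLen_addHook_zero k ν hk1, rowLen_addHook_zero]
  · have hin := inner_addHook k ν h hk
    have h1 := YoungDiagram.mem_iff_lt_rowLen.1 hi
    have h2 := YoungDiagram.mem_iff_lt_colLen.1 hi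
    have hi' : (i, i) ∈ ν := ((mem_addHook_succ _ _ _ _).1 hi).1
    have e := h i hi'
    have r := rowLen_inner (addHook k ν) i
    have c := colLen_inner (addHook k ν) i
    rw [hin] at r c
    omega

lemma addHook_inner (μ : YoungDiagram) (h : IsB μ) (k : ℕ) (hk : μ.colLen 0 = k + 1)
    (hk1 : 1 ≤ k) : addHook k (inner μ) = μ := by
  have h0 : (0, 0) ∈ μ := YoungDiagram.mem_iff_lt_colLen.2 (by omega)
  have e := h 0 h0
  ext ⟨i, j⟩
  rw [YoungDiagram.mem_cells, YoungDiagram.mem_cells]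
  rcases i with _ | i
  · rw [mem_addHook_zero, YoungDiagram.mem_iff_lt_rowLen]
    omega
  · rcases j with _ | j
    · rw [mem_addHook_col, YoungDiagram.mem_iff_lt_colLen]
      omega
    · rw [mem_addHook_succ, mem_inner]
      constructor
      · exact fun h => h.1
      · intro hh
        refine ⟨hh, ?_⟩
        have h1 := YoungDiagram.mem_iff_lt_rowLen.1 hh
        have h2 := YoungDiagram.mem_iff_lt_colLen.1 hh
        have h3 := μ.rowLen_anti 0 (i + 1) (Nat.zero_le _)
        have h4 := μ.colLen_anti 0 (j + 1) (Nat.zero_le _)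
        omega

/-- the product over the cells of `addHook` -/
lemma prod_addHook {M : Type*} [CommMonoid M] (f : ℕ × ℕ → M) (k : ℕ) (ν : YoungDiagram)
    (h : IsB ν) (hk : ν.colLen 0 ≤ k) :
    ∏ c ∈ (addHook k ν).cells, f c =
      (∏ j ∈ range k, f (0, j)) * (∏ i ∈ range k, f (i + 1, 0)) *
        ∏ c ∈ ν.cells, f (c.1 + 1, c.2 + 1) := by
  have hfil : ν.cells.filter (fun c => c.1 < k ∧ c.2 + 1 < k) = ν.cells := by
    apply Finset.filter_true_of_mem
    rintro ⟨i, j⟩ hij
    exact fits k ν h hk i j hij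
  show ∏ c ∈ ((range k).image (fun j => ((0 : ℕ), j))) ∪ ((range k).image (fun i => (i + 1, 0))) ∪
    (ν.cells.filter (fun c => c.1 < k ∧ c.2 + 1 < k)).image (fun c => (c.1 + 1, c.2 + 1)), f c = _
  rw [hfil, Finset.prod_union, Finset.prod_union, Finset.prod_image, Finset.prod_image,
    Finset.prod_image]
  · rintro ⟨a, b⟩ _ ⟨c, d⟩ _ hh
    simp only [Prod.mk.injEq, Nat.add_right_cancel_iff] at hh
    simp [hh.1, hh.2]
  · intro a _ b _ hh
    simp only [Prod.mk.injEq, Nat.add_right_cancel_iff, and_true] at hh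
    exact hh
  · intro a _ b _ hh
    simp only [Prod.mk.injEq, true_and] at hh
    exact hh
  · rw [Finset.disjoint_left]
    rintro ⟨a, b⟩ h1 h2
    simp only [Finset.mem_image, Prod.mk.injEq] at h1 h2
    obtain ⟨x, _, hx1, hx2⟩ := h1
    obtain ⟨y, _, hy1, hy2⟩ := h2
    omega
  · rw [Finset.disjoint_left]
    rintro ⟨a, b⟩ h1 h2
    simp only [Finset.mem_union, Finset.mem_image, Prod.mk.injEq, Prod.exists] at h1 h2
    obtain ⟨y, z, _, hy1, hy2⟩ := h2
    rcases h1 with ⟨x, _, hx1, hx2⟩ | ⟨x, _, hx1, hx2⟩ <;> omega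

/-! ### The finite families and their generating functions -/

lemma isB_bot : IsB ⊥ := fun _ hi => absurd hi (YoungDiagram.notMem_bot _)

lemma colLen_bot (i : ℕ) : (⊥ : YoungDiagram).colLen i = 0 := by
  by_contra h
  exact YoungDiagram.notMem_bot (0, i) (YoungDiagram.mem_iff_lt_colLen.2 (Nat.pos_of_ne_zero h))

open Classical in
/-- The diagrams in `B` with first column of length at most `K + 1`. -/
def BB : ℕ → Finset YoungDiagram
  | 0 => {⊥}
  | K + 1 => BB K ∪ (BB K).image (addHook (K + 1))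

lemma mem_BB (K : ℕ) (μ : YoungDiagram) : μ ∈ BB K ↔ IsB μ ∧ μ.colLen 0 ≤ K + 1 := by
  classical
  induction K generalizing μ with
  | zero =>
    simp only [BB, Finset.mem_singleton]
    constructor
    · rintro rfl
      exact ⟨isB_bot, by rw [colLen_bot]; omega⟩
    · rintro ⟨h1, h2⟩
      have h3 := rowLen_zero_of_isB μ h1
      have h4 : μ.colLen 0 = 0 := by omega
      ext ⟨i, j⟩
      simp only [YoungDiagram.mem_cells, YoungDiagram.cells_bot, Finset.notMem_empty, iff_false]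
      intro hij
      have h5 := YoungDiagram.mem_iff_lt_colLen.1 hij
      have h6 := μ.colLen_anti 0 j (Nat.zero_le _)
      omega
  | succ K ih =>
    simp only [BB, Finset.mem_union, Finset.mem_image, ih]
    constructor
    · rintro (⟨h1, h2⟩ | ⟨ν, ⟨h1, h2⟩, rfl⟩)
      · exact ⟨h1, by omega⟩
      · exact ⟨isB_addHook (K + 1) ν h1 (by omega) h2, by
          rw [colLen_addHook_zero (K + 1) ν (by omega)]⟩
    · rintro ⟨h1, h2⟩
      rcases Nat.lt_or_ge (μ.colLen 0) (K + 2) with h3 | h3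
      · exact Or.inl ⟨h1, by omega⟩
      · right
        refine ⟨inner μ, ⟨isB_inner μ h1, ?_⟩, addHook_inner μ h1 (K + 1) (by omega) (by omega)⟩
        rw [colLen_inner]
        have := μ.colLen_anti 0 1 (Nat.zero_le _)
        simp only [Nat.zero_add]
        omega

/-- the cell weight `±X` -/
def gX (c : ℕ × ℕ) : ℚ⟦X⟧ := if c.1 ≤ c.2 then -X else X

lemma gX_eq (c : ℕ × ℕ) : gX c = PowerSeries.C (g c) * X := by
  unfold gX g
  split_ifs <;> simp

lemma prod_gX (μ : YoungDiagram) :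
    ∏ c ∈ μ.cells, gX c = PowerSeries.C (∏ c ∈ μ.cells, g c) * X ^ μ.card := by
  simp only [gX_eq, Finset.prod_mul_distrib, Finset.prod_const, map_prod]

lemma gX_succ (c : ℕ × ℕ) : gX (c.1 + 1, c.2 + 1) = gX c := by
  simp [gX]

lemma sum_BB (K : ℕ) :
    ∑ μ ∈ BB K, ∏ c ∈ μ.cells, gX c = ∏ j ∈ range K, (1 + (-(X : ℚ⟦X⟧) ^ 2) ^ (j + 1)) := by
  classical
  induction K with
  | zero => simp [BB]
  | succ K ih =>
    rw [Finset.prod_range_succ, ← ih]
    simp only [BB]
    rw [Finset.sum_union, Finset.sum_image]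
    · have : ∀ ν ∈ BB K, ∏ c ∈ (addHook (K + 1) ν).cells, gX c =
          (-(X : ℚ⟦X⟧) ^ 2) ^ (K + 1) * ∏ c ∈ ν.cells, gX c := by
        intro ν hν
        rw [mem_BB] at hν
        rw [prod_addHook gX (K + 1) ν hν.1 hν.2]
        simp only [gX_succ]
        congr 1
        have e1 : ∀ j ∈ range (K + 1), gX (0, j) = -X := by
          intro j _
          simp [gX]
        have e2 : ∀ j ∈ range (K + 1), gX (j + 1, 0) = X := by
          intro j _
          simp [gX]
        rw [Finset.prod_congr rfl e1, Finset.prod_congr rfl e2]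
        simp only [Finset.prod_const, Finset.card_range]
        rw [← mul_pow]
        ring
      rw [Finset.sum_congr rfl this, ← Finset.mul_sum]
      ring
    · intro μ hμ ν hν hh
      simp only [Finset.mem_coe, mem_BB] at hμ hν
      have := congrArg inner hh
      rwa [inner_addHook _ _ hμ.1 hμ.2, inner_addHook _ _ hν.1 hν.2] at this
    · rw [Finset.disjoint_left]
      intro μ h1 h2
      rw [Finset.mem_image] at h2
      obtain ⟨ν, hν, rfl⟩ := h2
      rw [mem_BB] at h1
      have := colLen_addHook_zero (K + 1) ν (by omega)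
      omega

/-- A diagram with `n` cells has at least `rowLen 0 + colLen 0 - 1` cells. -/
lemma card_lower (μ : YoungDiagram) (h : IsB μ) : 2 * μ.colLen 0 ≤ μ.card + 2 := by
  rcases rowLen_zero_of_isB μ h with h0 | ⟨h0, h1⟩
  · omega
  · have hsub : ((range (μ.rowLen 0)).image (fun j => ((0 : ℕ), j))) ∪
        ((range (μ.rowLen 0)).image (fun i => (i + 1, (0 : ℕ)))) ⊆ μ.cells := by
      rintro ⟨i, j⟩ hij
      simp only [Finset.mem_union, Finset.mem_image, Finset.mem_range, Prod.mk.injEq] at hij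
      rw [YoungDiagram.mem_cells]
      rcases hij with ⟨a, h2, h3, h4⟩ | ⟨a, h2, h3, h4⟩
      · subst h3; subst h4
        exact YoungDiagram.mem_iff_lt_rowLen.2 h2
      · subst h3; subst h4
        exact YoungDiagram.mem_iff_lt_colLen.2 (by omega)
    have hc := Finset.card_le_card hsub
    have hcard : μ.card = μ.cells.card := rfl
    rw [Finset.card_union_of_disjoint, Finset.card_image_of_injective,
      Finset.card_image_of_injective, Finset.card_range] at hc
    · omega
    · intro a b hab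
      simp only [Prod.mk.injEq, Nat.add_right_cancel_iff, and_true] at hab
      exact hab
    · intro a b hab
      simp only [Prod.mk.injEq, true_and] at hab
      exact hab
    · rw [Finset.disjoint_left]
      rintro ⟨a, b⟩ h1 h2
      simp only [Finset.mem_image, Prod.mk.injEq] at h1 h2
      obtain ⟨x, _, hx1, hx2⟩ := h1
      obtain ⟨y, _, hy1, hy2⟩ := h2
      omega

lemma a_eq (n K : ℕ) (hn : n < 2 * K + 2) :
    a n = coeff n (∏ j ∈ range K, (1 + (-(X : ℚ⟦X⟧) ^ 2) ^ (j + 1))) := by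
  classical
  rw [← sum_BB, map_sum]
  simp only [prod_gX]
  unfold a
  have hterm : ∀ μ : YoungDiagram, (coeff n) (PowerSeries.C (∏ c ∈ μ.cells, g c) * X ^ μ.card)
      = if μ.card = n then ∏ c ∈ μ.cells, g c else 0 := by
    intro μ
    rw [PowerSeries.coeff_C_mul, PowerSeries.coeff_X_pow]
    by_cases h : μ.card = n
    · rw [if_pos h.symm, if_pos h, mul_one]
    · rw [if_neg (fun hh => h hh.symm), if_neg h, mul_zero]
  simp only [hterm]
  rw [finsum_eq_sum_of_support_subset (s := BB K)]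
  · refine Finset.sum_congr rfl ?_
    intro μ hμ
    rw [mem_BB] at hμ
    by_cases h : μ.card = n
    · rw [finsum_eq_if, if_pos h, if_pos h, prod_of_isB μ hμ.1]
    · rw [finsum_eq_if, if_neg h, if_neg h]
  · intro μ hμ
    rw [Function.mem_support] at hμ
    rw [finsum_eq_if] at hμ
    by_cases h : μ.card = n
    · rw [if_pos h] at hμ
      have hB : IsB μ := by
        by_contra hB
        exact hμ (prod_of_not_isB μ hB)
      rw [Finset.mem_coe, mem_BB]
      refine ⟨hB, ?_⟩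
      have := card_lower μ hB
      omega
    · rw [if_neg h] at hμ
      exact absurd rfl hμ

/-! ### Euler's identity -/

lemma one_sub_ne (m : ℕ) : (1 : ℚ⟦X⟧) - (-(X : ℚ⟦X⟧) ^ 2) ^ (m + 1) ≠ 0 := by
  intro h
  have := congrArg (constantCoeff (R := ℚ)) h
  simp at this

lemma euler (y : ℚ⟦X⟧) (hy : ∀ m : ℕ, (1 : ℚ⟦X⟧) - y ^ (m + 1) ≠ 0) (L : ℕ) :
    (∏ j ∈ range (2 * L), (1 + y ^ (j + 1))) * ∏ k ∈ range L, (1 - y ^ (2 * k + 1)) =
      ∏ j ∈ range L, (1 - y ^ (2 * (L + j + 1))) := by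
  induction L with
  | zero => simp
  | succ L ih =>
    have h2 : 2 * (L + 1) = 2 * L + 1 + 1 := by ring
    rw [h2, Finset.prod_range_succ, Finset.prod_range_succ, Finset.prod_range_succ _ L]
    have hshift : (1 - y ^ (2 * (L + 0 + 1))) * ∏ j ∈ range L, (1 - y ^ (2 * (L + (j + 1) + 1))) =
        (∏ j ∈ range L, (1 - y ^ (2 * (L + j + 1)))) * (1 - y ^ (2 * (L + L + 1))) := by
      rw [← Finset.prod_range_succ (fun j => (1 - y ^ (2 * (L + j + 1)))) L,
        Finset.prod_range_succ' (fun j => (1 - y ^ (2 * (L + j + 1)))) L, mul_comm]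
    have hR : ∏ j ∈ range (L + 1), (1 - y ^ (2 * (L + 1 + j + 1))) =
        (∏ j ∈ range L, (1 - y ^ (2 * (L + (j + 1) + 1)))) * (1 - y ^ (2 * (L + (L + 1) + 1))) := by
      rw [Finset.prod_range_succ]
      congr 1
      · refine Finset.prod_congr rfl fun j _ => ?_
        congr 2
        ring
      · congr 2
        ring
    rw [hR]
    have hne := hy (2 * L + 1)
    apply mul_left_cancel₀ hne
    have e1 : (1 - y ^ (2 * L + 1 + 1)) = (1 - y ^ (2 * (L + 0 + 1))) := by
      congr 2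
    have hR2 : (1 - y ^ (2 * L + 1 + 1)) * ((∏ j ∈ range L, (1 - y ^ (2 * (L + (j + 1) + 1)))) *
        (1 - y ^ (2 * (L + (L + 1) + 1)))) =
        ((∏ j ∈ range L, (1 - y ^ (2 * (L + j + 1)))) * (1 - y ^ (2 * (L + L + 1)))) *
        (1 - y ^ (2 * (L + (L + 1) + 1))) := by
      rw [e1, ← mul_assoc, hshift]
    rw [hR2, ← ih]
    have p1 : y ^ (2 * (L + L + 1)) = y ^ (2 * L + 1) * y ^ (2 * L + 1) := by
      rw [← pow_add]; congr 1; ring
    have p2 : y ^ (2 * (L + (L + 1) + 1)) = y ^ (2 * L + 1 + 1) * y ^ (2 * L + 1 + 1) := by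
      rw [← pow_add]; congr 1; ring
    rw [p1, p2]
    ring

lemma y_pow_odd (k : ℕ) : (1 : ℚ⟦X⟧) - (-(X : ℚ⟦X⟧) ^ 2) ^ (2 * k + 1) = 1 + X ^ (4 * k + 2) := by
  rw [neg_pow, pow_add, pow_mul]
  simp only [even_two, Even.neg_pow, one_pow, pow_one, one_mul, neg_mul, ← pow_mul, sub_neg_eq_add,
    add_right_inj, mul_neg, mul_one]
  congr 1
  ring

lemma euler_mod (L : ℕ) :
    ∃ r : ℚ⟦X⟧, ∏ j ∈ range L, (1 - (-(X : ℚ⟦X⟧) ^ 2) ^ (2 * (L + j + 1))) =
      1 + X ^ (4 * L + 2) * r := by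
  have key : ∀ m : ℕ, ∃ r : ℚ⟦X⟧, ∏ j ∈ range m, (1 - (-(X : ℚ⟦X⟧) ^ 2) ^ (2 * (L + j + 1))) =
      1 + X ^ (4 * L + 2) * r := by
    intro m
    induction m with
    | zero => exact ⟨0, by simp⟩
    | succ m ih =>
      obtain ⟨r, hr⟩ := ih
      have e : (-(X : ℚ⟦X⟧) ^ 2) ^ (2 * (L + m + 1)) = X ^ (4 * L + 2) * X ^ (4 * m + 2) := by
        rw [pow_mul, neg_sq, ← pow_mul, ← pow_mul, ← pow_add]
        congr 1
        ring
      rw [Finset.prod_range_succ, hr, e]
      refine ⟨r - X ^ (4 * m + 2) - X ^ (4 * L + 2) * r * X ^ (4 * m + 2), ?_⟩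
      ring
  exact key L

lemma coeff_main (n L : ℕ) (hn : n < 4 * L + 2) :
    a n = coeff n (∏ k ∈ range L, (1 + (X : ℚ⟦X⟧) ^ (4 * k + 2))⁻¹) := by
  rw [a_eq n (2 * L) (by omega)]
  obtain ⟨r, hr⟩ := euler_mod L
  have he := euler (-(X : ℚ⟦X⟧) ^ 2) one_sub_ne L
  rw [hr] at he
  simp only [y_pow_odd] at he
  have hinv : (∏ k ∈ range L, (1 + (X : ℚ⟦X⟧) ^ (4 * k + 2))) *
      (∏ k ∈ range L, (1 + (X : ℚ⟦X⟧) ^ (4 * k + 2))⁻¹) = 1 := by
    rw [← Finset.prod_mul_distrib]
    apply Finset.prod_eq_one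
    intro k _
    apply PowerSeries.mul_inv_cancel
    simp
  have : ∏ j ∈ range (2 * L), (1 + (-(X : ℚ⟦X⟧) ^ 2) ^ (j + 1)) =
      (∏ k ∈ range L, (1 + (X : ℚ⟦X⟧) ^ (4 * k + 2))⁻¹) + X ^ (4 * L + 2) *
        (r * ∏ k ∈ range L, (1 + (X : ℚ⟦X⟧) ^ (4 * k + 2))⁻¹) := by
    calc ∏ j ∈ range (2 * L), (1 + (-(X : ℚ⟦X⟧) ^ 2) ^ (j + 1))
        = (∏ j ∈ range (2 * L), (1 + (-(X : ℚ⟦X⟧) ^ 2) ^ (j + 1))) *
          ((∏ k ∈ range L, (1 + (X : ℚ⟦X⟧) ^ (4 * k + 2))) *
      (∏ k ∈ range L, (1 + (X : ℚ⟦X⟧) ^ (4 * k + 2))⁻¹)) := by rw [hinv, mul_one]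
      _ = _ := by rw [← mul_assoc, he]; ring
  rw [this, map_add, PowerSeries.coeff_X_pow_mul', if_neg (by omega), add_zero]

open scoped PowerSeries.WithPiTopology in
/-- **Main theorem.** -/
theorem result :
    (∀ n K : ℕ, n < 4 * K + 2 →
      a n = coeff n (∏ k ∈ range K, (1 + (X : ℚ⟦X⟧) ^ (4 * k + 2))⁻¹)) ∧
    HasProd (fun k : ℕ => (1 + (X : ℚ⟦X⟧) ^ (4 * k + 2))⁻¹) (PowerSeries.mk a) := by
  refine ⟨fun n K h => coeff_main n K h, ?_⟩
  classical
  rw [HasProd, SummationFilter.unconditional_filter, PowerSeries.WithPiTopology.tendsto_iff_coeff_tendsto]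
  intro n
  rw [PowerSeries.coeff_mk]
  apply tendsto_nhds_of_eventually_eq
  filter_upwards [Filter.eventually_ge_atTop (range (n + 1))] with s hs
  rw [coeff_main n (n + 1) (by omega)]
  have hsub : range (n + 1) ⊆ s := hs
  rw [← Finset.sdiff_union_of_subset hsub, Finset.prod_union Finset.sdiff_disjoint]
  have key : ∀ u : Finset ℕ, (∀ k ∈ u, n + 1 ≤ k) → ∃ r : ℚ⟦X⟧,
      ∏ k ∈ u, (1 + (X : ℚ⟦X⟧) ^ (4 * k + 2))⁻¹ = 1 + X ^ (n + 1) * r := by
    intro u
    induction u using Finset.induction_on with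
    | empty => intro _; exact ⟨0, by simp⟩
    | insert k u hk ih =>
      intro hu
      obtain ⟨r, hr⟩ := ih (fun m hm => hu m (Finset.mem_insert_of_mem hm))
      have hk1 := hu k (Finset.mem_insert_self _ _)
      rw [Finset.prod_insert hk, hr]
      obtain ⟨m, hm⟩ : ∃ m, 4 * k + 2 = n + 1 + m := ⟨4 * k + 2 - (n + 1), by omega⟩
      have hi : (1 + (X : ℚ⟦X⟧) ^ (4 * k + 2)) * (1 + (X : ℚ⟦X⟧) ^ (4 * k + 2))⁻¹ = 1 := by
        apply PowerSeries.mul_inv_cancel
        simp
      have hi2 : (1 + (X : ℚ⟦X⟧) ^ (4 * k + 2))⁻¹ =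
          1 - X ^ (n + 1) * (X ^ m * (1 + (X : ℚ⟦X⟧) ^ (4 * k + 2))⁻¹) := by
        rw [← mul_assoc, ← pow_add, ← hm]
        rw [eq_sub_iff_add_eq]
        calc _ = (1 + (X : ℚ⟦X⟧) ^ (4 * k + 2)) * (1 + (X : ℚ⟦X⟧) ^ (4 * k + 2))⁻¹ := by ring
          _ = 1 := hi
      rw [hi2]
      refine ⟨r - X ^ m * (1 + (X : ℚ⟦X⟧) ^ (4 * k + 2))⁻¹ -
        (X ^ m * (1 + (X : ℚ⟦X⟧) ^ (4 * k + 2))⁻¹) * X ^ (n + 1) * r, by ring⟩
  obtain ⟨r, hr⟩ := key (s \ range (n + 1)) (by
    intro k hk
    simp only [Finset.mem_sdiff, Finset.mem_range] at hk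
    omega)
  rw [hr, add_mul, one_mul, map_add, mul_assoc, PowerSeries.coeff_X_pow_mul', if_neg (by omega),
    add_zero]

end

end Pool.Agent.Results.MP_3e0fcf_co.SymplecticAtZero
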